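import Pool.Agent.Q50.LR.Dsc

/-!
# The linear relations determine the torsor up to an abelian quotient
-/

open Matrix MvPolynomial

set_option linter.unusedSectionVars false

namespace Pool.Agent.Q50.LR

variable {K : Type} [Field K] [Algebra K ℂ] {n : ℕ}

/-! ### Extension of subspaces -/

/-- The complex matrices whose components are in `U`. -/
noncomputable def ext (U : Submodule K (Matrix (Fin n) (Fin n) K)) :
    Submodule ℂ (Matrix (Fin n) (Fin n) ℂ) where
  carrier := {Z | ∀ ν : ℂ →ₗ[K] K, Z.map ν ∈ U}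
  zero_mem' := by
    intro ν
    have h : (0 : Matrix (Fin n) (Fin n) ℂ).map ν = 0 := by
      ext i j
      exact ν.map_zero
    rw [h]
    exact U.zero_mem
  add_mem' := by
    intro a b ha hb ν
    have h : (a + b).map ν = a.map ν + b.map ν := by
      ext i j
      exact ν.map_add _ _
    rw [h]
    exact U.add_mem (ha ν) (hb ν)
  smul_mem' := by
    intro r a ha ν
    exact ha (ν ∘ₗ LinearMap.mulLeft K r)

theorem mem_ext {U : Submodule K (Matrix (Fin n) (Fin n) K)} {Z : Matrix (Fin n) (Fin n) ℂ} :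
    Z ∈ ext U ↔ ∀ ν : ℂ →ₗ[K] K, Z.map ν ∈ U := Iff.rfl

theorem map_mc (ν : ℂ →ₗ[K] K) (A : Matrix (Fin n) (Fin n) K) : (mc K A).map ν = ν 1 • A := by
  ext i j
  change ν (algebraMap K ℂ (A i j)) = ν 1 • A i j
  rw [Algebra.algebraMap_eq_smul_one, map_smul, smul_eq_mul, smul_eq_mul, mul_comm]

theorem mc_mem_ext {U : Submodule K (Matrix (Fin n) (Fin n) K)} {A : Matrix (Fin n) (Fin n) K} :
    mc K A ∈ ext U ↔ A ∈ U := by
  constructor
  · intro h
    obtain ⟨ν, hν⟩ : ∃ ν : ℂ →ₗ[K] K, ν 1 = 1 := by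
      obtain ⟨ν, hν⟩ := Module.Projective.exists_dual_ne_zero K (one_ne_zero : (1 : ℂ) ≠ 0)
      refine ⟨(ν 1)⁻¹ • ν, ?_⟩
      rw [LinearMap.smul_apply, smul_eq_mul, inv_mul_cancel₀ hν]
    have h1 := h ν
    rw [map_mc, hν, one_smul] at h1
    exact h1
  · intro h ν
    rw [map_mc]
    exact U.smul_mem _ h

/-- A complex matrix is a combination of its components. -/
theorem exists_comb_mat (K : Type) [Field K] [Algebra K ℂ] (Z : Matrix (Fin n) (Fin n) ℂ) :
    ∃ (s : Finset (Module.Basis.ofVectorSpaceIndex K ℂ)),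
      Z = ∑ j ∈ s, Module.Basis.ofVectorSpace K ℂ j •
        mc K (Z.map ((Module.Basis.ofVectorSpace K ℂ).coord j)) := by
  classical
  let b := Module.Basis.ofVectorSpace K ℂ
  refine ⟨Finset.univ.biUnion fun p : Ix n => (b.repr (Z p.1 p.2)).support, ?_⟩
  ext i j
  rw [Matrix.sum_apply]
  have h1 : (b.repr (Z i j)).support ⊆
      Finset.univ.biUnion fun p : Ix n => (b.repr (Z p.1 p.2)).support :=
    Finset.subset_biUnion_of_mem (fun p : Ix n => (b.repr (Z p.1 p.2)).support)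
      (Finset.mem_univ (i, j))
  rw [← Finset.sum_subset h1]
  · conv_lhs => rw [← b.linearCombination_repr (Z i j)]
    rw [Finsupp.linearCombination_apply, Finsupp.sum]
    refine Finset.sum_congr rfl fun m _ => ?_
    rw [Algebra.smul_def, mul_comm]
    rfl
  · intro m _ hm
    rw [Finsupp.notMem_support_iff] at hm
    change b m * algebraMap K ℂ (b.coord m (Z i j)) = 0
    rw [Module.Basis.coord_apply, hm, map_zero, mul_zero]

/-- Induction on the elements of the extension. -/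
theorem mem_of_comps {V : Submodule ℂ (Matrix (Fin n) (Fin n) ℂ)}
    {Z : Matrix (Fin n) (Fin n) ℂ} (h : ∀ ν : ℂ →ₗ[K] K, mc K (Z.map ν) ∈ V) : Z ∈ V := by
  obtain ⟨s, hs⟩ := exists_comb_mat K Z
  rw [hs]
  exact Submodule.sum_mem _ fun j _ => V.smul_mem _ (h _)

theorem ext_LK [IsAlgClosed K] {H : Subgroup (GL (Fin n) ℂ)} (hH : IsAlgebraicGroup K H)
    {Z : Matrix (Fin n) (Fin n) ℂ} : Z ∈ ext (LK K H) ↔ Z ∈ LC H :=
  ⟨fun h => mem_of_comps fun ν => h ν, fun h ν => comp_mem_LK hH h ν⟩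

theorem dm_mem_ext {U : Submodule K (Matrix (Fin n) (Fin n) K)} {Z : Matrix (Fin n) (Fin n) ℂ}
    (h : Z ∈ ext U) (δ : Derivation K ℂ ℂ) : dm δ Z ∈ ext U := fun ν =>
  h (ν ∘ₗ δ.toLinearMap)

/-! ### The relations -/

/-- The pairing with a conjugate as a combination. -/
theorem pr_conj (a u : Matrix (Fin n) (Fin n) K) (Q : GL (Fin n) ℂ) :
    pr a (((Q⁻¹ : GL (Fin n) ℂ) : Matrix (Fin n) (Fin n) ℂ) * mc K u *
      (Q : Matrix (Fin n) (Fin n) ℂ)) = comb K (fun i j k l => a k j * u l i) Q := by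
  have h1 : ∀ k j, (((Q⁻¹ : GL (Fin n) ℂ) : Matrix (Fin n) (Fin n) ℂ) * mc K u *
      (Q : Matrix (Fin n) (Fin n) ℂ)) k j =
      ∑ i, ∑ l, (Q⁻¹ : GL (Fin n) ℂ) k l * algebraMap K ℂ (u l i) * Q i j := by
    intro k j
    rw [Matrix.mul_apply]
    refine Finset.sum_congr rfl fun i _ => ?_
    rw [Matrix.mul_apply, Finset.sum_mul]
    rfl
  rw [pr, comb]
  simp only [h1, Finset.mul_sum]
  -- reorder the sums
  rw [Finset.sum_comm]
  have h2 : ∀ j, ∑ k, ∑ i, ∑ l, algebraMap K ℂ (a k j) *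
      ((Q⁻¹ : GL (Fin n) ℂ) k l * algebraMap K ℂ (u l i) * Q i j) =
      ∑ i, ∑ k, ∑ l, algebraMap K ℂ (a k j * u l i) * (Q i j * (Q⁻¹ : GL (Fin n) ℂ) k l) := by
    intro j
    rw [Finset.sum_comm]
    refine Finset.sum_congr rfl fun i _ => Finset.sum_congr rfl fun k _ =>
      Finset.sum_congr rfl fun l _ => ?_
    rw [map_mul]
    ring
  rw [Finset.sum_congr rfl fun j _ => h2 j, Finset.sum_comm]

/-- The pairing as a linear form. -/
noncomputable def prL (a : Matrix (Fin n) (Fin n) K) : Matrix (Fin n) (Fin n) ℂ →ₗ[ℂ] ℂ where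
  toFun := fun M => pr a M
  map_add' := fun M N => by
    simp only [pr, Matrix.add_apply, mul_add, Finset.sum_add_distrib]
  map_smul' := fun r M => by
    simp only [pr, Matrix.smul_apply, smul_eq_mul, Finset.mul_sum, RingHom.id_apply]
    refine Finset.sum_congr rfl fun i _ => Finset.sum_congr rfl fun j _ => ?_
    ring

section norm

attribute [local instance] Matrix.linftyOpNormedRing Matrix.linftyOpNormedAlgebra

theorem deriv_conj (U X : Matrix (Fin n) (Fin n) ℂ) :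
    HasDerivAt (fun z : ℂ => NormedSpace.exp (z • (-X)) * U * NormedSpace.exp (z • X))
      (U * X - X * U) 0 := by
  have h1 : HasDerivAt (fun z : ℂ => NormedSpace.exp (z • X))
      (X * NormedSpace.exp ((0 : ℂ) • X)) 0 := hasDerivAt_exp_smul_const' X 0
  have h2 : HasDerivAt (fun z : ℂ => NormedSpace.exp (z • (-X)))
      ((-X) * NormedSpace.exp ((0 : ℂ) • (-X))) 0 := hasDerivAt_exp_smul_const' (-X) 0
  rw [zero_smul, NormedSpace.exp_zero, mul_one] at h1 h2
  have h3 := (h2.mul_const U).mul h1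
  refine h3.congr_deriv ?_
  simp only [zero_smul, NormedSpace.exp_zero, mul_one, one_mul]
  noncomm_ring

theorem deriv_pr (a : Matrix (Fin n) (Fin n) K) (A B U X : Matrix (Fin n) (Fin n) ℂ) :
    HasDerivAt (fun z : ℂ => prL a (A *
      (NormedSpace.exp (z • (-X)) * U * NormedSpace.exp (z • X)) * B))
      (prL a (A * (U * X - X * U) * B)) 0 := by
  have h3 := ((deriv_conj U X).const_mul A).mul_const B
  exact (LinearMap.toContinuousLinearMap (prL a)).hasFDerivAt.comp_hasDerivAt (0 : ℂ) h3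

end norm

section rel

variable {G : Subgroup (GL (Fin n) ℂ)} {P : GL (Fin n) ℂ}

/-- A linear relation can be differentiated along the Lie algebra of `G`. -/
theorem rel_lie (hlin : LinearRelationsHold K G P) {X : Matrix (Fin n) (Fin n) ℂ}
    (hX : X ∈ lieAlg G) (a u : Matrix (Fin n) (Fin n) K)
    (h : pr a (((P⁻¹ : GL (Fin n) ℂ) : Matrix (Fin n) (Fin n) ℂ) * mc K u *
      (P : Matrix (Fin n) (Fin n) ℂ)) = 0) :
    pr a (((P⁻¹ : GL (Fin n) ℂ) : Matrix (Fin n) (Fin n) ℂ) * (mc K u * X - X * mc K u) *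
      (P : Matrix (Fin n) (Fin n) ℂ)) = 0 := by
  rw [pr_conj] at h
  have h1 := hlin _ h
  -- the function
  have h2 : ∀ z : ℂ, pr a (((P⁻¹ : GL (Fin n) ℂ) : Matrix (Fin n) (Fin n) ℂ) *
      (NormedSpace.exp (z • (-X)) * mc K u * NormedSpace.exp (z • X)) *
      (P : Matrix (Fin n) (Fin n) ℂ)) = 0 := by
    intro z
    obtain ⟨g, hg, hg'⟩ := hX z
    have h3 := h1 g hg
    rw [← pr_conj, _root_.mul_inv_rev, Units.val_mul, Units.val_mul, hg'] at h3
    have h4 : ((g⁻¹ : GL (Fin n) ℂ) : Matrix (Fin n) (Fin n) ℂ) =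
        NormedSpace.exp (z • (-X)) := by
      rw [smul_neg, Matrix.exp_neg, ← hg']
      exact Matrix.coe_units_inv g
    rw [h4] at h3
    simpa only [mul_assoc] using h3
  -- the derivative
  have h3 : HasDerivAt (fun z : ℂ => pr a (((P⁻¹ : GL (Fin n) ℂ) : Matrix (Fin n) (Fin n) ℂ) *
      (NormedSpace.exp (z • (-X)) * mc K u * NormedSpace.exp (z • X)) *
      (P : Matrix (Fin n) (Fin n) ℂ)))
      (pr a (((P⁻¹ : GL (Fin n) ℂ) : Matrix (Fin n) (Fin n) ℂ) * (mc K u * X - X * mc K u) *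
      (P : Matrix (Fin n) (Fin n) ℂ))) 0 := deriv_pr a _ _ _ X
  have h4 : (fun z : ℂ => pr a (((P⁻¹ : GL (Fin n) ℂ) : Matrix (Fin n) (Fin n) ℂ) *
      (NormedSpace.exp (z • (-X)) * mc K u * NormedSpace.exp (z • X)) *
      (P : Matrix (Fin n) (Fin n) ℂ))) = fun _ => 0 := funext h2
  rw [h4] at h3
  exact ((hasDerivAt_const (0 : ℂ) (0 : ℂ)).unique h3).symm

end rel

/-! ### Stable subspaces -/

/-- The subspace is stable under the brackets with the logarithmic derivatives. -/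
def Stable (P : GL (Fin n) ℂ) (U : Submodule K (Matrix (Fin n) (Fin n) K)) : Prop :=
  ∀ δ : Derivation K ℂ ℂ, ∀ Z ∈ ext U, Z * ld δ P - ld δ P * Z ∈ ext U

/-- The conjugate of the extension of `U`. -/
noncomputable def cj (P : GL (Fin n) ℂ) (U : Submodule K (Matrix (Fin n) (Fin n) K)) :
    Submodule ℂ (Matrix (Fin n) (Fin n) ℂ) where
  carrier := {W | (P : Matrix (Fin n) (Fin n) ℂ) * W *
    ((P⁻¹ : GL (Fin n) ℂ) : Matrix (Fin n) (Fin n) ℂ) ∈ ext U}
  zero_mem' := by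
    change _ * 0 * _ ∈ ext U
    rw [mul_zero, zero_mul]
    exact Submodule.zero_mem _
  add_mem' := by
    intro a b ha hb
    change _ * (a + b) * _ ∈ ext U
    rw [mul_add, add_mul]
    exact Submodule.add_mem _ ha hb
  smul_mem' := by
    intro r a ha
    change _ * (r • a) * _ ∈ ext U
    rw [Matrix.mul_smul, Matrix.smul_mul]
    exact Submodule.smul_mem _ _ ha

theorem conj_mem_cj {P : GL (Fin n) ℂ} {U : Submodule K (Matrix (Fin n) (Fin n) K)}
    {Z : Matrix (Fin n) (Fin n) ℂ} :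
    ((P⁻¹ : GL (Fin n) ℂ) : Matrix (Fin n) (Fin n) ℂ) * Z * (P : Matrix (Fin n) (Fin n) ℂ) ∈
      cj P U ↔ Z ∈ ext U := by
  have h : (P : Matrix (Fin n) (Fin n) ℂ) *
      (((P⁻¹ : GL (Fin n) ℂ) : Matrix (Fin n) (Fin n) ℂ) * Z * (P : Matrix (Fin n) (Fin n) ℂ)) *
      ((P⁻¹ : GL (Fin n) ℂ) : Matrix (Fin n) (Fin n) ℂ) = Z := by
    rw [mul_assoc _ Z, ← mul_assoc, mul_inv_coe, one_mul, mul_assoc, mul_inv_coe, mul_one]
  change (P : Matrix (Fin n) (Fin n) ℂ) *
      (((P⁻¹ : GL (Fin n) ℂ) : Matrix (Fin n) (Fin n) ℂ) * Z * (P : Matrix (Fin n) (Fin n) ℂ)) *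
      ((P⁻¹ : GL (Fin n) ℂ) : Matrix (Fin n) (Fin n) ℂ) ∈ ext U ↔ _
  rw [h]

theorem conj_of_cj (P : GL (Fin n) ℂ) (W : Matrix (Fin n) (Fin n) ℂ) :
    ((P⁻¹ : GL (Fin n) ℂ) : Matrix (Fin n) (Fin n) ℂ) *
      ((P : Matrix (Fin n) (Fin n) ℂ) * W *
        ((P⁻¹ : GL (Fin n) ℂ) : Matrix (Fin n) (Fin n) ℂ)) *
      (P : Matrix (Fin n) (Fin n) ℂ) = W := by
  rw [mul_assoc _ W, ← mul_assoc, inv_mul_coe, one_mul, mul_assoc, inv_mul_coe, mul_one]

theorem cj_stable {P : GL (Fin n) ℂ} {U : Submodule K (Matrix (Fin n) (Fin n) K)}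
    (hU : Stable P U) (δ : Derivation K ℂ ℂ) (W : Matrix (Fin n) (Fin n) ℂ) (hW : W ∈ cj P U) :
    dm δ W ∈ cj P U := by
  have h1 := dm_conj δ P ((P : Matrix (Fin n) (Fin n) ℂ) * W *
    ((P⁻¹ : GL (Fin n) ℂ) : Matrix (Fin n) (Fin n) ℂ))
  rw [conj_of_cj] at h1
  rw [h1, conj_mem_cj]
  exact Submodule.add_mem _ (dm_mem_ext hW δ) (hU δ _ hW)

/-- **The brackets with the Lie algebra of `G`.** -/
theorem bracket_ext [IsAlgClosed K] {G : Subgroup (GL (Fin n) ℂ)} {P : GL (Fin n) ℂ}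
    (hlin : LinearRelationsHold K G P) {U : Submodule K (Matrix (Fin n) (Fin n) K)}
    (hU : Stable P U) {X : Matrix (Fin n) (Fin n) ℂ} (hX : X ∈ lieAlg G)
    {u : Matrix (Fin n) (Fin n) K} (hu : u ∈ U) : mc K u * X - X * mc K u ∈ ext U := by
  rw [← conj_mem_cj (P := P)]
  refine cut_mat _ (cj_stable hU) _ fun a ha => ?_
  exact rel_lie hlin hX a u (ha _ (conj_mem_cj.2 (mc_mem_ext.2 hu)))

section main

variable [IsAlgClosed K] {G H : Subgroup (GL (Fin n) ℂ)} {P : GL (Fin n) ℂ}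

/-- The Lie algebra of `H` is normalised by the one of `G`. -/
theorem stable_LK (hH : IsAlgebraicGroup K H) (hP : OnTorsor K H P) : Stable P (LK K H) := by
  intro δ Z hZ
  rw [ext_LK hH] at hZ ⊢
  exact LC_bracket hZ (ld_mem_LC hH hP δ)

theorem ideal_LK (hH : IsAlgebraicGroup K H) (hP : OnTorsor K H P)
    (hlin : LinearRelationsHold K G P) {X : Matrix (Fin n) (Fin n) ℂ} (hX : X ∈ lieAlg G)
    {u : Matrix (Fin n) (Fin n) K} (hu : u ∈ LK K H) : mc K u * X - X * mc K u ∈ LC H := by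
  rw [← ext_LK (K := K) hH]
  exact bracket_ext hlin (stable_LK hH hP) hX hu

theorem ideal_LC (hH : IsAlgebraicGroup K H) (hP : OnTorsor K H P)
    (hlin : LinearRelationsHold K G P) {X : Matrix (Fin n) (Fin n) ℂ} (hX : X ∈ lieAlg G)
    {Z : Matrix (Fin n) (Fin n) ℂ} (hZ : Z ∈ LC H) : Z * X - X * Z ∈ LC H := by
  obtain ⟨s, hs⟩ := exists_comb_mat K Z
  have h1 : Z * X - X * Z = ∑ j ∈ s, Module.Basis.ofVectorSpace K ℂ j •
      (mc K (Z.map ((Module.Basis.ofVectorSpace K ℂ).coord j)) * X -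
        X * mc K (Z.map ((Module.Basis.ofVectorSpace K ℂ).coord j))) := by
    conv_lhs => rw [hs]
    rw [Finset.sum_mul, Finset.mul_sum, ← Finset.sum_sub_distrib]
    refine Finset.sum_congr rfl fun j _ => ?_
    rw [Matrix.smul_mul, Matrix.mul_smul, smul_sub]
  rw [h1]
  exact Submodule.sum_mem _ fun j _ => Submodule.smul_mem _ _
    (ideal_LK hH hP hlin hX (comp_mem_LK hH hZ _))

theorem mc_add (A B : Matrix (Fin n) (Fin n) K) : mc K (A + B) = mc K A + mc K B := by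
  ext i j
  exact (algebraMap K ℂ).map_add _ _

theorem mc_smul (r : K) (A : Matrix (Fin n) (Fin n) K) :
    mc K (r • A) = algebraMap K ℂ r • mc K A := by
  ext i j
  exact (algebraMap K ℂ).map_mul _ _

theorem mc_sub (A B : Matrix (Fin n) (Fin n) K) : mc K (A - B) = mc K A - mc K B := by
  ext i j
  exact (algebraMap K ℂ).map_sub _ _

theorem mc_mul (A B : Matrix (Fin n) (Fin n) K) : mc K (A * B) = mc K A * mc K B := by
  rw [mc, Matrix.map_mul]

/-- The sum of the Lie algebra of `H` and of a line. -/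
theorem stable_sup (hG : IsAlgebraicGroup K G) (hH : IsAlgebraicGroup K H)
    (hP : OnTorsor K H P) (hlin : LinearRelationsHold K G P) {X : Matrix (Fin n) (Fin n) K}
    (hX : X ∈ LK K G) : Stable P (LK K H ⊔ Submodule.span K {X}) := by
  intro δ Z hZ
  obtain ⟨s, hs⟩ := exists_comb_mat K Z
  have h1 : Z * ld δ P - ld δ P * Z = ∑ j ∈ s, Module.Basis.ofVectorSpace K ℂ j •
      (mc K (Z.map ((Module.Basis.ofVectorSpace K ℂ).coord j)) * ld δ P -
        ld δ P * mc K (Z.map ((Module.Basis.ofVectorSpace K ℂ).coord j))) := by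
    conv_lhs => rw [hs]
    rw [Finset.sum_mul, Finset.mul_sum, ← Finset.sum_sub_distrib]
    refine Finset.sum_congr rfl fun j _ => ?_
    rw [Matrix.smul_mul, Matrix.mul_smul, smul_sub]
  rw [h1]
  refine Submodule.sum_mem _ fun j _ => Submodule.smul_mem _ _ ?_
  obtain ⟨u, hu, v, hv, huv⟩ := Submodule.mem_sup.1 (hZ ((Module.Basis.ofVectorSpace K ℂ).coord j))
  rw [← huv]
  obtain ⟨c, rfl⟩ := Submodule.mem_span_singleton.1 hv
  have h2 : mc K u * ld δ P - ld δ P * mc K u ∈ LC H :=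
    LC_bracket hu (ld_mem_LC hH hP δ)
  have h3 : ld δ P * mc K X - mc K X * ld δ P ∈ LC H :=
    ideal_LC hH hP hlin (LC_le_lieAlg hG hX) (ld_mem_LC hH hP δ)
  have h4 : mc K (u + c • X) * ld δ P - ld δ P * mc K (u + c • X) =
      (mc K u * ld δ P - ld δ P * mc K u) -
        algebraMap K ℂ c • (ld δ P * mc K X - mc K X * ld δ P) := by
    rw [mc_add, mc_smul, add_mul, mul_add, Matrix.smul_mul, Matrix.mul_smul, smul_sub]
    abel
  have h5 : mc K (u + c • X) * ld δ P - ld δ P * mc K (u + c • X) ∈ LC H := by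
    rw [h4]
    exact Submodule.sub_mem _ h2 (Submodule.smul_mem _ _ h3)
  intro ν
  exact Submodule.mem_sup_left ((ext_LK hH).2 h5 ν)

theorem bracket_sup (hG : IsAlgebraicGroup K G) (hH : IsAlgebraicGroup K H)
    (hP : OnTorsor K H P) (hlin : LinearRelationsHold K G P) {X Y : Matrix (Fin n) (Fin n) K}
    (hX : X ∈ LK K G) (hY : Y ∈ LK K G) :
    ∃ h ∈ LK K H, ∃ c : K, X * Y - Y * X = h + c • X := by
  have h1 := bracket_ext hlin (stable_sup hG hH hP hlin hX) (LC_le_lieAlg hG hY)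
    (Submodule.mem_sup_right (Submodule.mem_span_singleton_self X))
  rw [← mc_mul, ← mc_mul, ← mc_sub, mc_mem_ext] at h1
  obtain ⟨u, hu, v, hv, huv⟩ := Submodule.mem_sup.1 h1
  obtain ⟨c, rfl⟩ := Submodule.mem_span_singleton.1 hv
  exact ⟨u, hu, c, huv.symm⟩

/-- **The brackets over `K`.** -/
theorem bracket_LK (hG : IsAlgebraicGroup K G) (hH : IsAlgebraicGroup K H)
    (hP : OnTorsor K H P) (hlin : LinearRelationsHold K G P) {X Y : Matrix (Fin n) (Fin n) K}
    (hX : X ∈ LK K G) (hY : Y ∈ LK K G) : X * Y - Y * X ∈ LK K H := by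
  obtain ⟨h, hh, c, hc⟩ := bracket_sup hG hH hP hlin hX hY
  obtain ⟨k, hk, d, hd⟩ := bracket_sup hG hH hP hlin hY hX
  by_cases hc0 : c = 0
  · rw [hc, hc0, zero_smul, add_zero]
    exact hh
  -- `X` is a multiple of `Y` modulo the Lie algebra of `H`
  have h1 : X = c⁻¹ • (-(k + d • Y) - h) := by
    have h2 : c • X = -(k + d • Y) - h := by
      rw [← hd, neg_sub, hc]
      abel
    rw [← h2, smul_smul, inv_mul_cancel₀ hc0, one_smul]
  have h2 : X * Y - Y * X = c⁻¹ • ((-(k + h)) * Y - Y * (-(k + h))) := by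
    have h3 : X = c⁻¹ • (-(k + h)) - (c⁻¹ * d) • Y := by
      rw [h1, mul_smul, ← smul_sub]
      congr 1
      abel
    rw [h3, sub_mul, mul_sub, Matrix.smul_mul, Matrix.mul_smul, Matrix.smul_mul, Matrix.mul_smul,
      smul_sub]
    abel
  rw [h2]
  refine Submodule.smul_mem _ _ ?_
  have h4 : -(k + h) ∈ LK K H := Submodule.neg_mem _ (Submodule.add_mem _ hk hh)
  have h5 := ideal_LK hH hP hlin (LC_le_lieAlg hG hY) h4
  rw [← mc_mul, ← mc_mul, ← mc_sub] at h5
  exact h5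

/-- **The derived algebra.** -/
theorem derived (hG : IsAlgebraicGroup K G) (hH : IsAlgebraicGroup K H)
    (hP : OnTorsor K H P) (hlin : LinearRelationsHold K G P) :
    ∀ X ∈ lieAlg G, ∀ Y ∈ lieAlg G, X * Y - Y * X ∈ lieAlg H := by
  intro X hX Y hY
  refine LC_le_lieAlg hH ?_
  have hX' := lieAlg_le_LC hX
  have hY' := lieAlg_le_LC hY
  obtain ⟨s, hs⟩ := exists_comb_mat K X
  obtain ⟨t, ht⟩ := exists_comb_mat K Y
  have h1 : X * Y - Y * X = ∑ i ∈ s, ∑ j ∈ t, (Module.Basis.ofVectorSpace K ℂ i *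
      Module.Basis.ofVectorSpace K ℂ j) •
      mc K (X.map ((Module.Basis.ofVectorSpace K ℂ).coord i) *
        Y.map ((Module.Basis.ofVectorSpace K ℂ).coord j) -
        Y.map ((Module.Basis.ofVectorSpace K ℂ).coord j) *
        X.map ((Module.Basis.ofVectorSpace K ℂ).coord i)) := by
    conv_lhs => rw [hs, ht]
    rw [Finset.sum_mul_sum, Finset.sum_mul_sum, Finset.sum_comm (s := t),
      ← Finset.sum_sub_distrib]
    refine Finset.sum_congr rfl fun i _ => ?_
    rw [← Finset.sum_sub_distrib]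
    refine Finset.sum_congr rfl fun j _ => ?_
    rw [mc_sub, mc_mul, mc_mul, Matrix.smul_mul, Matrix.mul_smul, Matrix.smul_mul,
      Matrix.mul_smul, smul_smul, smul_smul, smul_sub, mul_comm (Module.Basis.ofVectorSpace K ℂ j)]
  rw [h1]
  refine Submodule.sum_mem _ fun i _ => Submodule.sum_mem _ fun j _ => Submodule.smul_mem _ _ ?_
  exact bracket_LK hG hH hP hlin (comp_mem_LK hG hX' _) (comp_mem_LK hG hY' _)

end main

end Pool.Agent.Q50.LR
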