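import Pool.Agent.Q50.LR.Exp

/-!
# The logarithmic derivatives of the period matrix
-/

open Matrix MvPolynomial

namespace Pool.Agent.Q50.LR

variable {K : Type} [Field K] [Algebra K ℂ] {n : ℕ}

/-- The derivation applied to the entries of a matrix. -/
def dm (δ : Derivation K ℂ ℂ) (M : Matrix (Fin n) (Fin n) ℂ) : Matrix (Fin n) (Fin n) ℂ :=
  M.map δ

theorem dm_mul (δ : Derivation K ℂ ℂ) (M N : Matrix (Fin n) (Fin n) ℂ) :
    dm δ (M * N) = dm δ M * N + M * dm δ N := by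
  ext i j
  change δ ((M * N) i j) = (dm δ M * N) i j + (M * dm δ N) i j
  rw [Matrix.mul_apply, Matrix.mul_apply, Matrix.mul_apply, map_sum, ← Finset.sum_add_distrib]
  refine Finset.sum_congr rfl fun l _ => ?_
  rw [Derivation.leibniz, smul_eq_mul, smul_eq_mul]
  change M i l * δ (N l j) + N l j * δ (M i l) = δ (M i l) * N l j + M i l * δ (N l j)
  ring

theorem dm_mc (δ : Derivation K ℂ ℂ) (A : Matrix (Fin n) (Fin n) K) : dm δ (mc K A) = 0 := by
  ext i j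
  exact δ.map_algebraMap _

theorem dm_one (δ : Derivation K ℂ ℂ) : dm δ (1 : Matrix (Fin n) (Fin n) ℂ) = 0 := by
  have h : (1 : Matrix (Fin n) (Fin n) ℂ) = mc K 1 := by
    rw [mc, Matrix.map_one _ (map_zero _) (map_one _)]
  rw [h, dm_mc]

theorem dm_sub (δ : Derivation K ℂ ℂ) (M N : Matrix (Fin n) (Fin n) ℂ) :
    dm δ (M - N) = dm δ M - dm δ N := by
  ext i j
  exact map_sub δ _ _

theorem dm_add (δ : Derivation K ℂ ℂ) (M N : Matrix (Fin n) (Fin n) ℂ) :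
    dm δ (M + N) = dm δ M + dm δ N := by
  ext i j
  exact map_add δ _ _

/-- The chain rule. -/
theorem delta_eval (δ : Derivation K ℂ ℂ) {M D : Matrix (Fin n) (Fin n) ℂ}
    (h : dm δ M = D * M) (f : MvPolynomial (Ix n) K) :
    δ (eval (pt M) (MvPolynomial.map (algebraMap K ℂ) f)) =
      eval (pt M) (dr D (MvPolynomial.map (algebraMap K ℂ) f)) := by
  induction f using MvPolynomial.induction_on with
  | C a =>
    rw [map_C, dr_C, eval_C, map_zero]
    exact δ.map_algebraMap _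
  | add a b ha hb => rw [map_add, map_add, map_add, ha, hb, map_add, map_add]
  | mul_X a p ha =>
    rw [map_mul, map_mul, Derivation.leibniz, Derivation.leibniz, map_add, ha, map_X, smul_eq_mul,
      smul_eq_mul, smul_eq_mul, smul_eq_mul, map_mul, map_mul, eval_X, dr_X, map_sum]
    have h1 : δ (pt M p) = ∑ l, eval (pt M) (C (D p.1 l) * X (l, p.2)) := by
      have h2 : δ (pt M p) = (dm δ M) p.1 p.2 := rfl
      rw [h2, h, Matrix.mul_apply]
      refine Finset.sum_congr rfl fun l _ => ?_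
      rw [map_mul, eval_C, eval_X]
      rfl
    rw [h1]

/-- The translation of the coordinates. -/
noncomputable def trn (g : Matrix (Fin n) (Fin n) ℂ) :
    MvPolynomial (Ix n) ℂ →ₐ[ℂ] MvPolynomial (Ix n) ℂ :=
  aeval fun p => ∑ l, C (g p.1 l) * X (l, p.2)

theorem eval_trn (g M : Matrix (Fin n) (Fin n) ℂ) (F : MvPolynomial (Ix n) ℂ) :
    eval (pt M) (trn g F) = eval (pt (g * M)) F := by
  induction F using MvPolynomial.induction_on with
  | C a =>
    rw [trn, ← algebraMap_eq, AlgHom.commutes, algebraMap_eq, eval_C, eval_C]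
  | add a b ha hb => rw [map_add, map_add, ha, hb, map_add]
  | mul_X a p ha =>
    rw [map_mul, map_mul, ha, map_mul, eval_X]
    congr 1
    rw [trn, aeval_X, map_sum]
    change _ = (g * M) p.1 p.2
    rw [Matrix.mul_apply]
    refine Finset.sum_congr rfl fun l _ => ?_
    rw [map_mul, eval_C, eval_X]
    rfl

/-- The logarithmic derivative. -/
noncomputable def ld (δ : Derivation K ℂ ℂ) (P : GL (Fin n) ℂ) : Matrix (Fin n) (Fin n) ℂ :=
  dm δ (P : Matrix (Fin n) (Fin n) ℂ) * ((P⁻¹ : GL (Fin n) ℂ) : Matrix (Fin n) (Fin n) ℂ)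

theorem inv_mul_coe (P : GL (Fin n) ℂ) : ((P⁻¹ : GL (Fin n) ℂ) : Matrix (Fin n) (Fin n) ℂ) *
    (P : Matrix (Fin n) (Fin n) ℂ) = 1 := by
  rw [← Units.val_mul, inv_mul_cancel, Units.val_one]

theorem mul_inv_coe (P : GL (Fin n) ℂ) : (P : Matrix (Fin n) (Fin n) ℂ) *
    ((P⁻¹ : GL (Fin n) ℂ) : Matrix (Fin n) (Fin n) ℂ) = 1 := by
  rw [← Units.val_mul, mul_inv_cancel, Units.val_one]

theorem ld_mul (δ : Derivation K ℂ ℂ) (P : GL (Fin n) ℂ) :
    dm δ (P : Matrix (Fin n) (Fin n) ℂ) = ld δ P * (P : Matrix (Fin n) (Fin n) ℂ) := by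
  rw [ld, mul_assoc, inv_mul_coe, mul_one]

theorem dm_inv (δ : Derivation K ℂ ℂ) (P : GL (Fin n) ℂ) :
    dm δ ((P⁻¹ : GL (Fin n) ℂ) : Matrix (Fin n) (Fin n) ℂ) =
      -(((P⁻¹ : GL (Fin n) ℂ) : Matrix (Fin n) (Fin n) ℂ) * ld δ P) := by
  have h1 : dm δ (((P⁻¹ : GL (Fin n) ℂ) : Matrix (Fin n) (Fin n) ℂ) *
      (P : Matrix (Fin n) (Fin n) ℂ)) = 0 := by rw [inv_mul_coe, dm_one]
  rw [dm_mul] at h1
  have h2 : dm δ ((P⁻¹ : GL (Fin n) ℂ) : Matrix (Fin n) (Fin n) ℂ) *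
      (P : Matrix (Fin n) (Fin n) ℂ) =
      -(((P⁻¹ : GL (Fin n) ℂ) : Matrix (Fin n) (Fin n) ℂ) *
        dm δ (P : Matrix (Fin n) (Fin n) ℂ)) := eq_neg_of_add_eq_zero_left h1
  have h3 := congrArg (fun M => M * ((P⁻¹ : GL (Fin n) ℂ) : Matrix (Fin n) (Fin n) ℂ)) h2
  simp only [mul_assoc, mul_inv_coe, mul_one, neg_mul] at h3
  exact h3

/-- The derivative of the conjugate. -/
theorem dm_conj (δ : Derivation K ℂ ℂ) (P : GL (Fin n) ℂ) (Z : Matrix (Fin n) (Fin n) ℂ) :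
    dm δ (((P⁻¹ : GL (Fin n) ℂ) : Matrix (Fin n) (Fin n) ℂ) * Z *
      (P : Matrix (Fin n) (Fin n) ℂ)) =
    ((P⁻¹ : GL (Fin n) ℂ) : Matrix (Fin n) (Fin n) ℂ) *
      (dm δ Z + (Z * ld δ P - ld δ P * Z)) * (P : Matrix (Fin n) (Fin n) ℂ) := by
  rw [dm_mul, dm_mul, dm_inv, ld_mul]
  noncomm_ring

/-- **The logarithmic derivatives are in the Lie algebra** of every group over `K` with a torsor
through `P`. -/
theorem ld_mem_LC [IsAlgClosed K] {H : Subgroup (GL (Fin n) ℂ)} (hH : IsAlgebraicGroup K H)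
    {P : GL (Fin n) ℂ} (hP : OnTorsor K H P) (δ : Derivation K ℂ ℂ) : ld δ P ∈ LC H := by
  obtain ⟨h, hh, A, rfl⟩ := hP
  -- reduction to the element of the group
  have h1 : ld δ (h * A.map (algebraMap K ℂ)) = ld δ h := by
    have h2 : dm δ ((h * A.map (algebraMap K ℂ) : GL (Fin n) ℂ) : Matrix (Fin n) (Fin n) ℂ) =
        dm δ (h : Matrix (Fin n) (Fin n) ℂ) *
          ((A.map (algebraMap K ℂ) : GL (Fin n) ℂ) : Matrix (Fin n) (Fin n) ℂ) := by
      have h3 : ((h * A.map (algebraMap K ℂ) : GL (Fin n) ℂ) : Matrix (Fin n) (Fin n) ℂ) =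
          (h : Matrix (Fin n) (Fin n) ℂ) * mc K (A : Matrix (Fin n) (Fin n) K) := rfl
      rw [h3, dm_mul, dm_mc, mul_zero, add_zero]
      rfl
    rw [ld, h2, _root_.mul_inv_rev, Units.val_mul, mul_assoc, ← mul_assoc _ _
      ((h⁻¹ : GL (Fin n) ℂ) : Matrix (Fin n) (Fin n) ℂ), mul_inv_coe, one_mul]
    rfl
  rw [h1]
  intro F hF
  obtain ⟨s, hs⟩ := exists_comb K F
  rw [hs, map_sum]
  refine Ideal.sum_mem _ fun j _ => ?_
  rw [dr_C_mul]
  refine Ideal.mul_mem_left _ _ ?_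
  have hf := nu_of_van hH hF ((Module.Basis.ofVectorSpace K ℂ).coord j)
  set f := nuP ((Module.Basis.ofVectorSpace K ℂ).coord j) F with hfdef
  set G := dr (ld δ h) (MvPolynomial.map (algebraMap K ℂ) f) with hG
  -- the points over `K`
  have h2 : trn (h : Matrix (Fin n) (Fin n) ℂ) G ∈ VanC H := by
    refine van_points hH fun B hB => ?_
    rw [eval_trn]
    have h3 : dm δ ((h : Matrix (Fin n) (Fin n) ℂ) *
        ((B.map (algebraMap K ℂ) : GL (Fin n) ℂ) : Matrix (Fin n) (Fin n) ℂ)) =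
        ld δ h * ((h : Matrix (Fin n) (Fin n) ℂ) *
          ((B.map (algebraMap K ℂ) : GL (Fin n) ℂ) : Matrix (Fin n) (Fin n) ℂ)) := by
      have h4 : ((B.map (algebraMap K ℂ) : GL (Fin n) ℂ) : Matrix (Fin n) (Fin n) ℂ) =
          mc K (B : Matrix (Fin n) (Fin n) K) := rfl
      rw [h4, dm_mul, dm_mc, mul_zero, add_zero, ld_mul, mul_assoc]
    rw [hG, ← delta_eval δ h3]
    have h5 : eval (pt ((h : Matrix (Fin n) (Fin n) ℂ) *
        ((B.map (algebraMap K ℂ) : GL (Fin n) ℂ) : Matrix (Fin n) (Fin n) ℂ)))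
        (MvPolynomial.map (algebraMap K ℂ) f) = 0 := hf (h * B.map (algebraMap K ℂ)) (mul_mem hh hB)
    rw [h5, map_zero]
  intro g hg
  have h3 := h2 (h⁻¹ * g) (mul_mem (inv_mem hh) hg)
  rw [eval_trn] at h3
  have h4 : (h : Matrix (Fin n) (Fin n) ℂ) * ((h⁻¹ * g : GL (Fin n) ℂ) :
      Matrix (Fin n) (Fin n) ℂ) = g := by
    rw [Units.val_mul, ← mul_assoc, mul_inv_coe, one_mul]
  rwa [h4] at h3

end Pool.Agent.Q50.LR
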