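import Pool.Agent.Q50.LR.Der
import Pool.Agent.Q50.DR.Trd

/-!
# Descent
-/

open Matrix MvPolynomial

set_option linter.unusedSectionVars false

namespace Pool.Agent.Q50.LR

variable {K : Type} [Field K] [Algebra K ℂ] {n : ℕ}

/-- The constants of the derivations over an algebraically closed field. -/
theorem const_of_der [IsAlgClosed K] {z : ℂ} (h : ∀ δ : Derivation K ℂ ℂ, δ z = 0) :
    ∃ r, algebraMap K ℂ r = z := by
  classical
  haveI : CharZero K := (algebraMap K ℂ).charZero
  by_cases hz : Transcendental K z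
  · exfalso
    have h1 : AlgebraicIndependent K (fun _ : Unit => z) :=
      (algebraicIndependent_unique_type_iff).2 hz
    obtain ⟨δ, hδ⟩ := Pool.Agent.Q50.DR.exists_derivation h1 ()
    have h2 := hδ ()
    rw [if_pos rfl, h δ] at h2
    exact zero_ne_one h2
  · have hz' : IsAlgebraic K z := by
      rw [Transcendental, not_not] at hz
      exact hz
    have h1 : Algebra.IsAlgebraic K (IntermediateField.adjoin K {z}) :=
      IntermediateField.isAlgebraic_adjoin fun x hx => by
        rw [Set.mem_singleton_iff] at hx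
        subst hx
        exact hz'.isIntegral
    have h2 : IntermediateField.adjoin K {z} = ⊥ :=
      IntermediateField.eq_bot_of_isAlgClosed_of_isAlgebraic _
    have h3 : z ∈ (⊥ : IntermediateField K ℂ) := by
      rw [← h2]
      exact IntermediateField.mem_adjoin_simple_self K z
    exact IntermediateField.mem_bot.1 h3

section fin

variable {ι : Type} [Fintype ι] [DecidableEq ι]

/-- A stable subspace is spanned by vectors over `K`. -/
theorem rational_span [IsAlgClosed K] (T : Submodule ℂ (ι → ℂ))
    (hT : ∀ δ : Derivation K ℂ ℂ, ∀ x ∈ T, (fun i => δ (x i)) ∈ T) :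
    ∀ x ∈ T, x ∈ Submodule.span ℂ
      {y | y ∈ T ∧ ∃ a : ι → K, y = fun i => algebraMap K ℂ (a i)} := by
  -- the support
  have hsupp : ∀ N : ℕ, ∀ x ∈ T, (Finset.univ.filter fun i => x i ≠ 0).card = N →
      x ∈ Submodule.span ℂ {y | y ∈ T ∧ ∃ a : ι → K, y = fun i => algebraMap K ℂ (a i)} := by
    intro N
    induction N using Nat.strong_induction_on with
    | _ N ih =>
      intro x hx hN
      by_cases h0 : x = 0
      · rw [h0]
        exact Submodule.zero_mem _
      -- a vector with minimal support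
      have hex : ∃ M : ℕ, ∃ y ∈ T, y ≠ 0 ∧ (∀ i, x i = 0 → y i = 0) ∧
          (Finset.univ.filter fun i => y i ≠ 0).card = M := ⟨_, x, hx, h0, fun _ h => h, rfl⟩
      classical
      obtain ⟨y, hy, hy0, hyx, hyM⟩ := Nat.find_spec hex
      have hmin : ∀ w ∈ T, w ≠ 0 → (∀ i, x i = 0 → w i = 0) →
          (Finset.univ.filter fun i => y i ≠ 0).card ≤
            (Finset.univ.filter fun i => w i ≠ 0).card := by
        intro w hw hw0 hwx
        rw [hyM]
        exact Nat.find_min' hex ⟨w, hw, hw0, hwx, rfl⟩
      obtain ⟨i, hi⟩ : ∃ i, y i ≠ 0 := by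
        by_contra hcon
        push Not at hcon
        exact hy0 (funext hcon)
      let w : ι → ℂ := (y i)⁻¹ • y
      have hw : w ∈ T := T.smul_mem _ hy
      have hwi : w i = 1 := inv_mul_cancel₀ hi
      have hw0 : ∀ j, w j = 0 ↔ y j = 0 := by
        intro j
        change (y i)⁻¹ * y j = 0 ↔ _
        rw [mul_eq_zero, or_iff_right (inv_ne_zero hi)]
      have hδ : ∀ δ : Derivation K ℂ ℂ, ∀ j, δ (w j) = 0 := by
        intro δ
        by_contra hcon
        have h1 : (fun j => δ (w j)) ≠ 0 := fun h => hcon fun j => congrFun h j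
        have h2 := hmin _ (hT δ w hw) h1 (fun j hj => by
          have h3 : w j = 0 := (hw0 j).2 (hyx j hj)
          change δ (w j) = 0
          rw [h3, map_zero])
        refine absurd h2 (not_le.2 (Finset.card_lt_card ⟨fun j hj => ?_, fun hsub => ?_⟩))
        · rw [Finset.mem_filter] at hj ⊢
          refine ⟨hj.1, fun h3 => hj.2 ?_⟩
          have h4 : w j = 0 := (hw0 j).2 h3
          rw [h4, map_zero]
        · have h3 := hsub (Finset.mem_filter.2 ⟨Finset.mem_univ i, hi⟩)
          rw [Finset.mem_filter] at h3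
          apply h3.2
          rw [hwi]
          exact δ.map_one_eq_zero
      have hrat : ∀ j, ∃ r, algebraMap K ℂ r = w j := fun j => const_of_der fun δ => hδ δ j
      choose a ha using hrat
      have hwS : w ∈ Submodule.span ℂ
          {y | y ∈ T ∧ ∃ a : ι → K, y = fun i => algebraMap K ℂ (a i)} :=
        Submodule.subset_span ⟨hw, a, funext fun j => (ha j).symm⟩
      -- subtraction
      have hxi : x i ≠ 0 := fun h => hi (hyx i h)
      have h1 : x - x i • w ∈ Submodule.span ℂ
          {y | y ∈ T ∧ ∃ a : ι → K, y = fun i => algebraMap K ℂ (a i)} := by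
        refine ih _ ?_ _ (T.sub_mem hx (T.smul_mem _ hw)) rfl
        rw [← hN]
        refine Finset.card_lt_card ⟨fun j hj => ?_, fun hsub => ?_⟩
        · rw [Finset.mem_filter] at hj ⊢
          refine ⟨hj.1, fun h2 => hj.2 ?_⟩
          have h3 : w j = 0 := (hw0 j).2 (hyx j h2)
          change x j - x i * w j = 0
          rw [h2, h3, mul_zero, sub_zero]
        · have h2 := hsub (Finset.mem_filter.2 ⟨Finset.mem_univ i, hxi⟩)
          rw [Finset.mem_filter] at h2
          apply h2.2
          change x i - x i * w i = 0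
          rw [hwi, mul_one, sub_self]
      have h2 : x = (x - x i • w) + x i • w := by rw [sub_add_cancel]
      rw [h2]
      exact Submodule.add_mem _ h1 (Submodule.smul_mem _ _ hwS)
  exact fun x hx => hsupp _ x hx rfl

/-- **Descent.** A stable subspace is cut out by equations over `K`. -/
theorem cut_out [IsAlgClosed K] (S : Submodule ℂ (ι → ℂ))
    (hS : ∀ δ : Derivation K ℂ ℂ, ∀ x ∈ S, (fun i => δ (x i)) ∈ S) (w : ι → ℂ)
    (hw : ∀ a : ι → K, (∀ x ∈ S, ∑ i, algebraMap K ℂ (a i) * x i = 0) →
      ∑ i, algebraMap K ℂ (a i) * w i = 0) : w ∈ S := by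
  by_contra hcon
  obtain ⟨f, hf, hf'⟩ := Submodule.exists_le_ker_of_notMem hcon
  let T : Submodule ℂ (ι → ℂ) :=
    { carrier := {b | ∀ x ∈ S, ∑ i, b i * x i = 0}
      zero_mem' := by
        intro x _
        simp
      add_mem' := by
        intro b b' hb hb' x hx
        have h1 : ∀ i, (b + b') i * x i = b i * x i + b' i * x i := fun i => add_mul _ _ _
        rw [Finset.sum_congr rfl fun i _ => h1 i, Finset.sum_add_distrib, hb x hx, hb' x hx,
          add_zero]
      smul_mem' := by
        intro r b hb x hx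
        have h1 : ∀ i, (r • b) i * x i = r * (b i * x i) := fun i => mul_assoc _ _ _
        rw [Finset.sum_congr rfl fun i _ => h1 i, ← Finset.mul_sum, hb x hx, mul_zero] }
  have hT : ∀ δ : Derivation K ℂ ℂ, ∀ b ∈ T, (fun i => δ (b i)) ∈ T := by
    intro δ b hb x hx
    have h1 : δ (∑ i, b i * x i) = 0 := by rw [hb x hx, map_zero]
    rw [map_sum] at h1
    have h2 : ∀ i, δ (b i * x i) = b i * δ (x i) + δ (b i) * x i := by
      intro i
      rw [Derivation.leibniz, smul_eq_mul, smul_eq_mul]
      ring
    rw [Finset.sum_congr rfl fun i _ => h2 i, Finset.sum_add_distrib, hb _ (hS δ x hx),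
      zero_add] at h1
    exact h1
  have hfs : ∀ x : ι → ℂ, f x = ∑ i, f (Pi.single i 1) * x i := by
    intro x
    have h1 : x = ∑ i, x i • (Pi.single i 1 : ι → ℂ) := by
      funext j
      rw [Finset.sum_apply, Finset.sum_eq_single j]
      · rw [Pi.smul_apply, Pi.single_eq_same, smul_eq_mul, mul_one]
      · intro i _ hi
        rw [Pi.smul_apply, Pi.single_eq_of_ne (Ne.symm hi), smul_zero]
      · intro h
        exact absurd (Finset.mem_univ _) h
    conv_lhs => rw [h1]
    rw [map_sum]
    refine Finset.sum_congr rfl fun i _ => ?_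
    rw [map_smul, smul_eq_mul, mul_comm]
  have h1 : (fun i => f (Pi.single i 1)) ∈ T := by
    intro x hx
    rw [← hfs]
    exact hf' hx
  have h2 := rational_span T hT _ h1
  have h3 : ∀ b ∈ Submodule.span ℂ
      {y | y ∈ T ∧ ∃ a : ι → K, y = fun i => algebraMap K ℂ (a i)}, ∑ i, b i * w i = 0 := by
    intro b hb
    induction hb using Submodule.span_induction with
    | mem b h =>
      obtain ⟨hb, a, rfl⟩ := h
      exact hw a hb
    | zero => simp
    | add b b' _ _ hb hb' =>
      have h1 : ∀ i, (b + b') i * w i = b i * w i + b' i * w i := fun i => add_mul _ _ _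
      rw [Finset.sum_congr rfl fun i _ => h1 i, Finset.sum_add_distrib, hb, hb', add_zero]
    | smul r b _ hb =>
      have h1 : ∀ i, (r • b) i * w i = r * (b i * w i) := fun i => mul_assoc _ _ _
      rw [Finset.sum_congr rfl fun i _ => h1 i, ← Finset.mul_sum, hb, mul_zero]
  apply hf
  rw [hfs]
  exact h3 _ h2

end fin

/-- The pairing of a matrix over `K` and a complex matrix. -/
noncomputable def pr (a : Matrix (Fin n) (Fin n) K) (W : Matrix (Fin n) (Fin n) ℂ) : ℂ :=
  ∑ i, ∑ j, algebraMap K ℂ (a i j) * W i j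

/-- Descent for spaces of matrices. -/
theorem cut_mat [IsAlgClosed K] (S : Submodule ℂ (Matrix (Fin n) (Fin n) ℂ))
    (hS : ∀ δ : Derivation K ℂ ℂ, ∀ W ∈ S, dm δ W ∈ S) (W : Matrix (Fin n) (Fin n) ℂ)
    (hW : ∀ a : Matrix (Fin n) (Fin n) K, (∀ V ∈ S, pr a V = 0) → pr a W = 0) : W ∈ S := by
  let L : (Ix n → ℂ) →ₗ[ℂ] Matrix (Fin n) (Fin n) ℂ :=
    { toFun := fun x => Matrix.of fun i j => x (i, j)
      map_add' := fun _ _ => rfl
      map_smul' := fun _ _ => rfl }
  have h1 : pt W ∈ S.comap L := by
    refine cut_out (S.comap L) (fun δ x hx => hS δ _ hx) _ fun a ha => ?_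
    have h2 := hW (Matrix.of fun i j => a (i, j)) fun V hV => by
      have h3 := ha (pt V) hV
      rw [Fintype.sum_prod_type] at h3
      exact h3
    rw [Fintype.sum_prod_type]
    exact h2
  exact h1

end Pool.Agent.Q50.LR
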