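import Mathlib

/-!
# Period matrices, torsors and linear relations: definitions

In the intended use `K` is the algebraic closure of the rational numbers in the complex numbers, `M`
is a (mixed) motive over `K` of rank `n`, for instance a Nori motive, `P` is the matrix of the
comparison isomorphism `H_DR(M) ⊗ ℂ → H_B(M) ⊗ ℂ` in a `K`-basis of `H_DR(M)` and a rational basis of
`H_B(M)`, and `G` is the motivic Galois group of `M`, with coefficients extended to `K`. The torsor of
motivic periods of `M` is the set of the matrices `g P`, `g` in `G`.
-/

open Matrix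

namespace Pool.Agent.Q50.LR

variable (K : Type) [Field K] [Algebra K ℂ] {n : ℕ}

/-- The group `H` of invertible complex matrices is an algebraic group over `K`: it is the set of the
common zeros of polynomials in the entries with coefficients in `K`. -/
def IsAlgebraicGroup (H : Subgroup (GL (Fin n) ℂ)) : Prop :=
  ∃ S : Set (MvPolynomial (Fin n × Fin n) K), ∀ g : GL (Fin n) ℂ,
    g ∈ H ↔ ∀ f ∈ S, MvPolynomial.aeval (fun p : Fin n × Fin n => g p.1 p.2) f = 0

/-- The matrix `P` lies on a torsor under `H` over the algebraically closed field `K`: it is the product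
of an element of `H` and of an invertible matrix with entries in `K`. -/
def OnTorsor (H : Subgroup (GL (Fin n) ℂ)) (P : GL (Fin n) ℂ) : Prop :=
  ∃ h ∈ H, ∃ A : GL (Fin n) K, P = h * A.map (algebraMap K ℂ)

/-- The linear combination with coefficients `a` of the products of the entries of `P` and of its
inverse. For the period matrix `P` of `M` these products are the periods of `M ⊗ M^∨`. -/
noncomputable def comb (a : Fin n → Fin n → Fin n → Fin n → K) (P : GL (Fin n) ℂ) : ℂ :=
  ∑ i, ∑ j, ∑ k, ∑ l, algebraMap K ℂ (a i j k l) * (P i j * P⁻¹ k l)

/-- Every `K`-linear relation between the products of the entries of `P` and of its inverse holds for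
all the matrices `g P`, `g` in `G`. -/
def LinearRelationsHold (G : Subgroup (GL (Fin n) ℂ)) (P : GL (Fin n) ℂ) : Prop :=
  ∀ a, comb K a P = 0 → ∀ g ∈ G, comb K a (g * P) = 0

variable {K}

/-- The Lie algebra of `H`: the matrices `X` such that `exp (z X)` is in `H` for all complex numbers
`z`. -/
def lieAlg (H : Subgroup (GL (Fin n) ℂ)) : Set (Matrix (Fin n) (Fin n) ℂ) :=
  {X | ∀ z : ℂ, ∃ h ∈ H, (h : Matrix (Fin n) (Fin n) ℂ) = NormedSpace.exp (z • X)}

end Pool.Agent.Q50.LR
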