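import Pool.Agent.Q50.LR.Drv

/-!
# The Lie algebra of an algebraic group: exponentials
-/

open Matrix MvPolynomial

namespace Pool.Agent.Q50.LR

variable {K : Type} [Field K] [Algebra K ℂ] {n : ℕ}

section norm

attribute [local instance] Matrix.linftyOpNormedRing Matrix.linftyOpNormedAlgebra

theorem exp_entry (Z M : Matrix (Fin n) (Fin n) ℂ) (z₀ : ℂ) (i j : Fin n) :
    HasDerivAt (fun z : ℂ => (NormedSpace.exp (z • Z) * M) i j)
      ((Z * (NormedSpace.exp (z₀ • Z) * M)) i j) z₀ := by
  have h1 : HasDerivAt (fun z : ℂ => NormedSpace.exp (z • Z)) (Z * NormedSpace.exp (z₀ • Z)) z₀ :=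
    hasDerivAt_exp_smul_const' Z z₀
  have h2 := h1.mul_const M
  let L : Matrix (Fin n) (Fin n) ℂ →ₗ[ℂ] ℂ :=
    { toFun := fun M => M i j
      map_add' := fun _ _ => rfl
      map_smul' := fun _ _ => rfl }
  have h3 := (LinearMap.toContinuousLinearMap L).hasFDerivAt.comp_hasDerivAt z₀ h2
  rw [mul_assoc] at h3
  exact h3

end norm

/-- The derivative of a polynomial along a curve. -/
theorem deriv_eval {u : ℂ → Matrix (Fin n) (Fin n) ℂ} {Z : Matrix (Fin n) (Fin n) ℂ} {z₀ : ℂ}
    (h : ∀ i j, HasDerivAt (fun z => u z i j) ((Z * u z₀) i j) z₀)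
    (F : MvPolynomial (Ix n) ℂ) :
    HasDerivAt (fun z => eval (pt (u z)) F) (eval (pt (u z₀)) (dr Z F)) z₀ := by
  induction F using MvPolynomial.induction_on with
  | C a =>
    rw [dr_C, map_zero]
    simp only [eval_C]
    exact hasDerivAt_const z₀ a
  | add a b ha hb =>
    rw [map_add, map_add]
    simp only [map_add]
    exact ha.add hb
  | mul_X a p ha =>
    have h1 : HasDerivAt (fun z => eval (pt (u z)) (X p))
        (eval (pt (u z₀)) (dr Z (X p))) z₀ := by
      rw [dr_X, map_sum]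
      simp only [eval_X, map_mul, eval_C]
      have h2 : ∑ l, Z p.1 l * pt (u z₀) (l, p.2) = (Z * u z₀) p.1 p.2 := by
        rw [Matrix.mul_apply]
        rfl
      rw [h2]
      exact h p.1 p.2
    have h2 := ha.mul h1
    simp only [map_mul]
    rw [Derivation.leibniz, map_add, smul_eq_mul, smul_eq_mul, map_mul, map_mul]
    refine (h2.congr_deriv ?_)
    ring

/-- The derivative of a polynomial along a one-parameter group. -/
theorem deriv_exp (Z M : Matrix (Fin n) (Fin n) ℂ) (z₀ : ℂ) (F : MvPolynomial (Ix n) ℂ) :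
    HasDerivAt (fun z : ℂ => eval (pt (NormedSpace.exp (z • Z) * M)) F)
      (eval (pt (NormedSpace.exp (z₀ • Z) * M)) (dr Z F)) z₀ :=
  deriv_eval (u := fun z => NormedSpace.exp (z • Z) * M) (fun i j => exp_entry Z M z₀ i j) F

/-- An entire function with a family of derivatives which vanish at zero is zero. -/
theorem entire_zero {φ : ℕ → ℂ → ℂ} (h : ∀ m z, HasDerivAt (φ m) (φ (m + 1) z) z)
    (h0 : ∀ m, φ m 0 = 0) (z : ℂ) : φ 0 z = 0 := by
  have hd : Differentiable ℂ (φ 0) := fun z => (h 0 z).differentiableAt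
  have h1 : ∀ m k, iteratedDeriv m (φ k) = φ (k + m) := by
    intro m
    induction m with
    | zero => intro k; rw [iteratedDeriv_zero, add_zero]
    | succ m ih =>
      intro k
      rw [iteratedDeriv_succ']
      have h2 : deriv (φ k) = φ (k + 1) := funext fun z => (h k z).deriv
      rw [h2, ih]
      congr 1
      omega
  have h2 := Complex.hasSum_taylorSeries_of_entire hd 0 z
  have h3 : ∀ m : ℕ, ((Nat.factorial m : ℂ)⁻¹ • (z - 0) ^ m • iteratedDeriv m (φ 0) 0) = 0 := by
    intro m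
    rw [h1, zero_add, h0, smul_zero, smul_zero]
  exact (HasSum.unique (by simpa only [h3] using h2) hasSum_zero)

/-- **The one-parameter groups of the elements of the Lie algebra are in the group.** -/
theorem LC_le_lieAlg {H : Subgroup (GL (Fin n) ℂ)} (hH : IsAlgebraicGroup K H)
    {Z : Matrix (Fin n) (Fin n) ℂ} (hZ : Z ∈ LC H) : Z ∈ lieAlg H := by
  intro z
  have hu : IsUnit (NormedSpace.exp (z • Z)) := Matrix.isUnit_exp _
  obtain ⟨h, hh⟩ := hu
  refine ⟨h, ?_, hh⟩
  obtain ⟨S, hS⟩ := hH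
  rw [hS]
  intro f hf
  have h0 : map (algebraMap K ℂ) f ∈ VanC H := by
    intro g hg
    rw [eval_map]
    exact (hS g).1 hg f hf
  have h1 : ∀ m : ℕ, (fun F => dr Z F)^[m] (map (algebraMap K ℂ) f) ∈ VanC H := by
    intro m
    induction m with
    | zero => exact h0
    | succ m ih =>
      rw [Function.iterate_succ_apply']
      exact hZ _ ih
  have h2 := entire_zero (φ := fun m z => eval (pt (NormedSpace.exp (z • Z) * 1))
    ((fun F => dr Z F)^[m] (map (algebraMap K ℂ) f))) (fun m z => by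
      rw [Function.iterate_succ_apply']
      exact deriv_exp Z 1 z _) (fun m => by
      have h3 := h1 m 1 (one_mem _)
      rw [zero_smul, NormedSpace.exp_zero, mul_one]
      exact h3) z
  change eval (pt (NormedSpace.exp (z • Z) * 1)) (map (algebraMap K ℂ) f) = 0 at h2
  rw [mul_one, eval_map, ← hh] at h2
  exact h2

/-- The converse. -/
theorem lieAlg_le_LC {H : Subgroup (GL (Fin n) ℂ)} {Z : Matrix (Fin n) (Fin n) ℂ}
    (hZ : Z ∈ lieAlg H) : Z ∈ LC H := by
  intro F hF h hh
  have h1 := deriv_exp Z (h : Matrix (Fin n) (Fin n) ℂ) 0 F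
  have h2 : (fun z : ℂ => eval (pt (NormedSpace.exp (z • Z) *
      (h : Matrix (Fin n) (Fin n) ℂ))) F) = fun _ => 0 := by
    funext z
    obtain ⟨g, hg, hg'⟩ := hZ z
    rw [← hg']
    exact hF (g * h) (mul_mem hg hh)
  rw [h2, zero_smul, NormedSpace.exp_zero, one_mul] at h1
  exact (hasDerivAt_const (0 : ℂ) (0 : ℂ)).unique h1 |>.symm

end Pool.Agent.Q50.LR
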