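import Pool.Agent.Q50.LR.Pol

/-!
# The Lie algebra of an algebraic group: derivations
-/

open Matrix MvPolynomial

namespace Pool.Agent.Q50.LR

variable {K : Type} [Field K] [Algebra K ℂ] {n : ℕ}

/-- The invariant derivation given by a matrix. -/
noncomputable def dr {A : Type} [CommRing A] (Z : Matrix (Fin n) (Fin n) A) :
    Derivation A (MvPolynomial (Ix n) A) (MvPolynomial (Ix n) A) :=
  mkDerivation A fun p => ∑ l, C (Z p.1 l) * X (l, p.2)

theorem dr_X {A : Type} [CommRing A] (Z : Matrix (Fin n) (Fin n) A) (p : Ix n) :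
    dr Z (X p) = ∑ l, C (Z p.1 l) * X (l, p.2) := mkDerivation_X _ _ _

theorem dr_C_mul {A : Type} [CommRing A] (Z : Matrix (Fin n) (Fin n) A) (a : A)
    (F : MvPolynomial (Ix n) A) : dr Z (C a * F) = C a * dr Z F := by
  rw [Derivation.leibniz, derivation_C, smul_zero, add_zero, smul_eq_mul]

theorem dr_C {A : Type} [CommRing A] (Z : Matrix (Fin n) (Fin n) A) (a : A) :
    dr Z (C a) = 0 := derivation_C _ _

theorem dr_ext {A : Type} [CommRing A]
    {D D' : Derivation A (MvPolynomial (Ix n) A) (MvPolynomial (Ix n) A)}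
    (h : ∀ p, D (X p) = D' (X p)) : D = D' := MvPolynomial.derivation_ext h

theorem dr_add {A : Type} [CommRing A] (Z Z' : Matrix (Fin n) (Fin n) A) :
    dr (Z + Z') = dr Z + dr Z' := by
  refine dr_ext fun p => ?_
  rw [Derivation.add_apply, dr_X, dr_X, dr_X, ← Finset.sum_add_distrib]
  refine Finset.sum_congr rfl fun l _ => ?_
  rw [Matrix.add_apply, C_add, add_mul]

theorem dr_smul {A : Type} [CommRing A] (r : A) (Z : Matrix (Fin n) (Fin n) A) :
    dr (r • Z) = r • dr Z := by
  refine dr_ext fun p => ?_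
  rw [Derivation.smul_apply, dr_X, dr_X, Finset.smul_sum]
  refine Finset.sum_congr rfl fun l _ => ?_
  rw [Matrix.smul_apply, smul_eq_mul, C_mul, mul_assoc, C_mul']

theorem dr_zero {A : Type} [CommRing A] : dr (0 : Matrix (Fin n) (Fin n) A) = 0 := by
  refine dr_ext fun p => ?_
  rw [dr_X, Derivation.coe_zero, Pi.zero_apply]
  simp

theorem dr_dr_X {A : Type} [CommRing A] (Y Y' : Matrix (Fin n) (Fin n) A) (p : Ix n) :
    dr Y (dr Y' (X p)) = ∑ l, C ((Y' * Y) p.1 l) * X (l, p.2) := by
  rw [dr_X, map_sum]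
  have h1 : ∀ l, dr Y (C (Y' p.1 l) * X (l, p.2)) =
      ∑ m, C (Y' p.1 l * Y l m) * (X (m, p.2) : MvPolynomial (Ix n) A) := by
    intro l
    rw [dr_C_mul, dr_X, Finset.mul_sum]
    refine Finset.sum_congr rfl fun m _ => ?_
    rw [C_mul, mul_assoc]
  rw [Finset.sum_congr rfl fun l _ => h1 l, Finset.sum_comm]
  refine Finset.sum_congr rfl fun m _ => ?_
  rw [← Finset.sum_mul, ← map_sum, Matrix.mul_apply]

theorem dr_bracket {A : Type} [CommRing A] (Z Z' : Matrix (Fin n) (Fin n) A) :
    dr (Z' * Z - Z * Z') = ⁅dr Z, dr Z'⁆ := by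
  refine dr_ext fun p => ?_
  rw [Derivation.commutator_apply, dr_dr_X, dr_dr_X, dr_X, ← Finset.sum_sub_distrib]
  refine Finset.sum_congr rfl fun l _ => ?_
  rw [Matrix.sub_apply, C_sub, sub_mul]

/-- The Lie algebra: the matrices whose derivations preserve the ideal. -/
noncomputable def LC (H : Subgroup (GL (Fin n) ℂ)) :
    Submodule ℂ (Matrix (Fin n) (Fin n) ℂ) where
  carrier := {Z | ∀ F ∈ VanC H, dr Z F ∈ VanC H}
  zero_mem' := by
    intro F _
    rw [dr_zero, Derivation.coe_zero, Pi.zero_apply]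
    exact Ideal.zero_mem _
  add_mem' := by
    intro a b ha hb F hF
    rw [dr_add, Derivation.add_apply]
    exact Ideal.add_mem _ (ha F hF) (hb F hF)
  smul_mem' := by
    intro r a ha F hF
    rw [dr_smul, Derivation.smul_apply, smul_eq_C_mul]
    exact Ideal.mul_mem_left _ _ (ha F hF)

theorem mem_LC {H : Subgroup (GL (Fin n) ℂ)} {Z : Matrix (Fin n) (Fin n) ℂ} :
    Z ∈ LC H ↔ ∀ F ∈ VanC H, dr Z F ∈ VanC H := Iff.rfl

theorem LC_bracket {H : Subgroup (GL (Fin n) ℂ)} {Z Z' : Matrix (Fin n) (Fin n) ℂ}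
    (h : Z ∈ LC H) (h' : Z' ∈ LC H) : Z * Z' - Z' * Z ∈ LC H := by
  intro F hF
  rw [dr_bracket, Derivation.commutator_apply]
  exact Ideal.sub_mem _ (h' _ (h _ hF)) (h _ (h' _ hF))

/-- The matrices over `K` with complex entries. -/
abbrev mc (K : Type) [Field K] [Algebra K ℂ] (Z : Matrix (Fin n) (Fin n) K) :
    Matrix (Fin n) (Fin n) ℂ := Z.map (algebraMap K ℂ)

theorem dr_map (Z : Matrix (Fin n) (Fin n) K) (f : MvPolynomial (Ix n) K) :
    dr (mc K Z) (map (algebraMap K ℂ) f) = map (algebraMap K ℂ) (dr Z f) := by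
  induction f using MvPolynomial.induction_on with
  | C a => rw [map_C, dr_C, dr_C, map_zero]
  | add a b ha hb => rw [map_add, map_add, ha, hb, map_add, map_add]
  | mul_X a p ha =>
    rw [map_mul, Derivation.leibniz, Derivation.leibniz, ha, map_X, dr_X, dr_X]
    simp only [smul_eq_mul, map_add, map_mul, map_sum, map_X, map_C, Matrix.map_apply]

theorem der_sum_apply {A B : Type} [CommRing A] [CommRing B] [Algebra A B] {ι : Type}
    (s : Finset ι) (D : ι → Derivation A B B) (x : B) : (∑ i ∈ s, D i) x = ∑ i ∈ s, D i x := by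
  classical
  induction s using Finset.induction_on with
  | empty => rw [Finset.sum_empty, Finset.sum_empty]; rfl
  | insert a s ha ih => rw [Finset.sum_insert ha, Finset.sum_insert ha, Derivation.add_apply, ih]

/-- The derivation in coordinates. -/
theorem dr_formula {A : Type} [CommRing A] (Z : Matrix (Fin n) (Fin n) A)
    (F : MvPolynomial (Ix n) A) :
    dr Z F = ∑ i, ∑ l, C (Z i l) * ∑ j, X (l, j) * pderiv (i, j) F := by
  have h : dr Z = ∑ i, ∑ l, ∑ j, (C (Z i l) * X (l, j) : MvPolynomial (Ix n) A) •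
      (pderiv (i, j) : Derivation A (MvPolynomial (Ix n) A) (MvPolynomial (Ix n) A)) := by
    refine dr_ext fun p => ?_
    rw [dr_X]
    simp only [der_sum_apply, Derivation.smul_apply, smul_eq_mul, pderiv_X, Pi.single_apply]
    rw [Finset.sum_comm]
    refine Finset.sum_congr rfl fun l _ => ?_
    rw [Finset.sum_eq_single p.1]
    · rw [Finset.sum_eq_single p.2]
      · rw [if_pos rfl, mul_one]
      · intro j _ hj
        rw [if_neg fun h => hj (by rw [h]), mul_zero]
      · intro h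
        exact absurd (Finset.mem_univ _) h
    · intro i _ hi
      refine Finset.sum_eq_zero fun j _ => ?_
      rw [if_neg fun h => hi (by rw [h]), mul_zero]
    · intro h
      exact absurd (Finset.mem_univ _) h
  rw [h]
  simp only [der_sum_apply, Derivation.smul_apply, smul_eq_mul]
  refine Finset.sum_congr rfl fun i _ => Finset.sum_congr rfl fun l _ => ?_
  rw [Finset.mul_sum]
  refine Finset.sum_congr rfl fun j _ => ?_
  rw [mul_assoc]

/-- The components of the value of a derivation. -/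
theorem nuP_dr (ν : ℂ →ₗ[K] K) (Z : Matrix (Fin n) (Fin n) ℂ) (f : MvPolynomial (Ix n) K) :
    nuP ν (dr Z (MvPolynomial.map (algebraMap K ℂ) f)) = dr (Z.map ν) f := by
  rw [dr_formula, dr_formula, nuP_sum]
  refine Finset.sum_congr rfl fun i _ => ?_
  rw [nuP_sum]
  refine Finset.sum_congr rfl fun l _ => ?_
  rw [Matrix.map_apply, ← nuP_C_mul_map, map_sum]
  congr 2
  refine Finset.sum_congr rfl fun j _ => ?_
  rw [map_mul, map_X, pderiv_map]

/-- The matrices over `K` in the Lie algebra. -/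
noncomputable def LK (K : Type) [Field K] [Algebra K ℂ] (H : Subgroup (GL (Fin n) ℂ)) :
    Submodule K (Matrix (Fin n) (Fin n) K) where
  carrier := {Z | mc K Z ∈ LC H}
  zero_mem' := by
    have h : mc K (0 : Matrix (Fin n) (Fin n) K) = 0 := by
      ext i j
      change algebraMap K ℂ 0 = 0
      rw [map_zero]
    change mc K 0 ∈ LC H
    rw [h]
    exact Submodule.zero_mem _
  add_mem' := by
    intro a b ha hb
    have h : mc K (a + b) = mc K a + mc K b := by
      ext i j
      change algebraMap K ℂ (a i j + b i j) = algebraMap K ℂ (a i j) + algebraMap K ℂ (b i j)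
      rw [map_add]
    change mc K (a + b) ∈ LC H
    rw [h]
    exact Submodule.add_mem _ ha hb
  smul_mem' := by
    intro r a ha
    have h : mc K (r • a) = algebraMap K ℂ r • mc K a := by
      ext i j
      change algebraMap K ℂ (r * a i j) = algebraMap K ℂ r * algebraMap K ℂ (a i j)
      rw [map_mul]
    change mc K (r • a) ∈ LC H
    rw [h]
    exact Submodule.smul_mem _ _ ha

theorem mem_LK {H : Subgroup (GL (Fin n) ℂ)} {Z : Matrix (Fin n) (Fin n) K} :
    Z ∈ LK K H ↔ mc K Z ∈ LC H := Iff.rfl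

theorem LK_bracket {H : Subgroup (GL (Fin n) ℂ)} {Z Z' : Matrix (Fin n) (Fin n) K}
    (h : Z ∈ LK K H) (h' : Z' ∈ LK K H) : Z * Z' - Z' * Z ∈ LK K H := by
  have h1 : mc K (Z * Z' - Z' * Z) = mc K Z * mc K Z' - mc K Z' * mc K Z := by
    rw [mc, ← RingHom.mapMatrix_apply, map_sub, map_mul, map_mul]
    rfl
  rw [mem_LK, h1]
  exact LC_bracket h h'

/-- **The Lie algebra is defined over `K`.** -/
theorem comp_mem_LK [IsAlgClosed K] {H : Subgroup (GL (Fin n) ℂ)} (hH : IsAlgebraicGroup K H)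
    {Z : Matrix (Fin n) (Fin n) ℂ} (hZ : Z ∈ LC H) (ν : ℂ →ₗ[K] K) : Z.map ν ∈ LK K H := by
  intro F hF
  obtain ⟨s, hs⟩ := exists_comb K F
  rw [hs, map_sum]
  refine Ideal.sum_mem _ fun j _ => ?_
  rw [dr_C_mul, dr_map]
  refine Ideal.mul_mem_left _ _ ?_
  rw [← nuP_dr]
  exact nu_of_van hH (hZ _ (nu_of_van hH hF _)) ν

end Pool.Agent.Q50.LR
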