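import Pool.Agent.Q50.LR.Defs

/-!
# Polynomials vanishing on an algebraic group
-/

open Matrix MvPolynomial

namespace Pool.Agent.Q50.LR

variable {K : Type} [Field K] [Algebra K ℂ] {n : ℕ}

/-- The index set. -/
abbrev Ix (n : ℕ) : Type := Fin n × Fin n

/-- The point given by a matrix. -/
def pt {A : Type*} (M : Matrix (Fin n) (Fin n) A) : Ix n → A := fun p => M p.1 p.2

/-- The polynomials which vanish on `H`. -/
def VanC (H : Subgroup (GL (Fin n) ℂ)) : Ideal (MvPolynomial (Ix n) ℂ) where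
  carrier := {F | ∀ h ∈ H, eval (pt (h : Matrix (Fin n) (Fin n) ℂ)) F = 0}
  zero_mem' := fun h _ => map_zero _
  add_mem' := by
    intro a b ha hb h hh
    rw [map_add, ha h hh, hb h hh, add_zero]
  smul_mem' := by
    intro a b hb h hh
    rw [smul_eq_mul, map_mul, hb h hh, mul_zero]

theorem mem_VanC {H : Subgroup (GL (Fin n) ℂ)} {F : MvPolynomial (Ix n) ℂ} :
    F ∈ VanC H ↔ ∀ h ∈ H, eval (pt (h : Matrix (Fin n) (Fin n) ℂ)) F = 0 := Iff.rfl

/-! ### Coefficients -/

section coeff

variable {σ : Type}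

/-- A linear form applied to the coefficients. -/
noncomputable def nuP (ν : ℂ →ₗ[K] K) (F : MvPolynomial σ ℂ) : MvPolynomial σ K :=
  ∑ m ∈ F.support, monomial m (ν (coeff m F))

theorem coeff_nuP (ν : ℂ →ₗ[K] K) (F : MvPolynomial σ ℂ) (m : σ →₀ ℕ) :
    coeff m (nuP ν F) = ν (coeff m F) := by
  classical
  rw [nuP, coeff_sum]
  simp only [coeff_monomial]
  rw [Finset.sum_ite_eq']
  split_ifs with h
  · rfl
  · rw [notMem_support_iff] at h
    rw [h, map_zero]

theorem nuP_add (ν : ℂ →ₗ[K] K) (F G : MvPolynomial σ ℂ) :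
    nuP ν (F + G) = nuP ν F + nuP ν G := by
  ext m
  rw [coeff_nuP, coeff_add, map_add, coeff_add, coeff_nuP, coeff_nuP]

theorem nuP_zero (ν : ℂ →ₗ[K] K) : nuP ν (0 : MvPolynomial σ ℂ) = 0 := by
  ext m
  rw [coeff_nuP, coeff_zero, coeff_zero, map_zero]

theorem nuP_sum (ν : ℂ →ₗ[K] K) {ι : Type} (s : Finset ι) (F : ι → MvPolynomial σ ℂ) :
    nuP ν (∑ i ∈ s, F i) = ∑ i ∈ s, nuP ν (F i) := by
  classical
  induction s using Finset.induction_on with
  | empty => rw [Finset.sum_empty, Finset.sum_empty, nuP_zero]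
  | insert a s ha ih => rw [Finset.sum_insert ha, Finset.sum_insert ha, nuP_add, ih]

theorem nuP_C_mul_map (ν : ℂ →ₗ[K] K) (z : ℂ) (f : MvPolynomial σ K) :
    nuP ν (C z * map (algebraMap K ℂ) f) = C (ν z) * f := by
  ext m
  rw [coeff_nuP, coeff_C_mul, coeff_C_mul, coeff_map, mul_comm z, ← Algebra.smul_def, map_smul,
    smul_eq_mul, mul_comm]

/-- The value of `nuP ν F` at a point over `K`. -/
theorem eval_nuP (ν : ℂ →ₗ[K] K) (F : MvPolynomial σ ℂ) (x : σ → K) :
    eval x (nuP ν F) = ν (eval (fun p => algebraMap K ℂ (x p)) F) := by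
  induction F using MvPolynomial.induction_on' with
  | monomial m z =>
    have h1 : (monomial m z : MvPolynomial σ ℂ) = C z * map (algebraMap K ℂ) (monomial m 1) := by
      rw [map_monomial, map_one, C_mul_monomial, mul_one]
    rw [h1, nuP_C_mul_map, map_mul, map_mul, eval_C, eval_C, eval_map]
    have h2 : eval₂ (algebraMap K ℂ) (fun p => algebraMap K ℂ (x p)) (monomial m (1 : K)) =
        algebraMap K ℂ (eval x (monomial m 1)) := by
      rw [eval₂_comp]
      rfl
    rw [h2, mul_comm z, ← Algebra.smul_def, map_smul, smul_eq_mul, mul_comm]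
  | add a b ha hb => rw [nuP_add, map_add, ha, hb, map_add, map_add]

/-- A polynomial is a combination of polynomials over `K` given by its coefficients. -/
theorem exists_comb (K : Type) [Field K] [Algebra K ℂ] (F : MvPolynomial σ ℂ) :
    ∃ (s : Finset (Module.Basis.ofVectorSpaceIndex K ℂ)),
      F = ∑ j ∈ s, C (Module.Basis.ofVectorSpace K ℂ j) *
        map (algebraMap K ℂ) (nuP ((Module.Basis.ofVectorSpace K ℂ).coord j) F) := by
  classical
  let b := Module.Basis.ofVectorSpace K ℂ
  refine ⟨F.support.biUnion fun m => (b.repr (coeff m F)).support, ?_⟩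
  ext m
  rw [coeff_sum]
  simp only [coeff_C_mul, coeff_map, coeff_nuP]
  by_cases hm : m ∈ F.support
  · have h1 : (b.repr (coeff m F)).support ⊆
        F.support.biUnion fun m => (b.repr (coeff m F)).support :=
      Finset.subset_biUnion_of_mem (fun m => (b.repr (coeff m F)).support) hm
    rw [← Finset.sum_subset h1]
    · conv_lhs => rw [← b.linearCombination_repr (coeff m F)]
      rw [Finsupp.linearCombination_apply, Finsupp.sum]
      refine Finset.sum_congr rfl fun j _ => ?_
      rw [Algebra.smul_def, mul_comm]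
      rfl
    · intro j _ hj
      rw [Finsupp.notMem_support_iff] at hj
      rw [Module.Basis.coord_apply, hj, map_zero, mul_zero]
  · rw [notMem_support_iff] at hm
    rw [hm]
    simp only [map_zero, mul_zero, Finset.sum_const_zero]

end coeff

/-! ### Points over `K` -/

/-- The polynomials which vanish on the points over `K` vanish on `H`. -/
theorem van_of_points [IsAlgClosed K] {H : Subgroup (GL (Fin n) ℂ)} (hH : IsAlgebraicGroup K H)
    {f : MvPolynomial (Ix n) K}
    (hf : ∀ A : GL (Fin n) K, A.map (algebraMap K ℂ) ∈ H →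
      eval (pt (A : Matrix (Fin n) (Fin n) K)) f = 0) :
    map (algebraMap K ℂ) f ∈ VanC H := by
  classical
  obtain ⟨S, hS⟩ := hH
  let dt : MvPolynomial (Ix n) K := (Matrix.of fun i j => (X (i, j) : MvPolynomial (Ix n) K)).det
  have hdt : ∀ {A : Type} [CommRing A] (φ : K →+* A) (M : Matrix (Fin n) (Fin n) A),
      eval₂ φ (pt M) dt = M.det := by
    intro A _ φ M
    have h1 : eval₂ φ (pt M) dt = eval₂Hom φ (pt M) dt := rfl
    rw [h1, RingHom.map_det]
    congr 1
    ext i j
    simp [pt]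
  have h1 : f * dt ∈ vanishingIdeal K (zeroLocus K (Ideal.span S)) := by
    intro x hx
    rw [zeroLocus_span] at hx
    let M : Matrix (Fin n) (Fin n) K := Matrix.of fun i j => x (i, j)
    have hM : pt M = x := rfl
    rw [map_mul]
    have h2 : aeval x dt = M.det := hdt (RingHom.id K) M
    rw [h2]
    by_cases h0 : M.det = 0
    · rw [h0, mul_zero]
    · let A : GL (Fin n) K := Matrix.GeneralLinearGroup.mkOfDetNeZero M h0
      have h3 : A.map (algebraMap K ℂ) ∈ H := by
        rw [hS]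
        intro g hg
        have h4 : aeval (fun p : Fin n × Fin n => (A.map (algebraMap K ℂ)) p.1 p.2) g =
            algebraMap K ℂ (aeval x g) := by
          have h5 : (fun p : Fin n × Fin n => (A.map (algebraMap K ℂ)) p.1 p.2) =
              fun p => algebraMap K ℂ (x p) := by
            funext p
            rfl
          rw [h5]
          exact aeval_algebraMap_apply ℂ x g
        rw [h4]
        have h6 : aeval x g = 0 := hx g hg
        rw [h6, map_zero]
      have h4 := hf A h3
      have h5 : aeval x f = eval (pt (A : Matrix (Fin n) (Fin n) K)) f := by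
        rfl
      rw [h5, h4, zero_mul]
  rw [vanishingIdeal_zeroLocus_eq_radical] at h1
  obtain ⟨m, hm⟩ := h1
  intro h hh
  have h2 : Ideal.span S ≤ RingHom.ker (eval₂Hom (algebraMap K ℂ)
      (pt (h : Matrix (Fin n) (Fin n) ℂ))) := by
    rw [Ideal.span_le]
    intro g hg
    exact (hS h).1 hh g hg
  have h3 := h2 hm
  rw [RingHom.mem_ker, map_pow, map_mul] at h3
  have h4 := eq_zero_of_pow_eq_zero h3
  have h5 : eval₂Hom (algebraMap K ℂ) (pt (h : Matrix (Fin n) (Fin n) ℂ)) dt =
      (h : Matrix (Fin n) (Fin n) ℂ).det := hdt _ _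
  rw [h5] at h4
  have h6 : (h : Matrix (Fin n) (Fin n) ℂ).det ≠ 0 := by
    have := (Matrix.isUnit_iff_isUnit_det _).1 h.isUnit
    exact this.ne_zero
  have h7 := (mul_eq_zero.1 h4).resolve_right h6
  rw [eval_map]
  exact h7

/-- The polynomials over `ℂ` which vanish on the points over `K` vanish on `H`. -/
theorem van_of_pointsC [IsAlgClosed K] {H : Subgroup (GL (Fin n) ℂ)} (hH : IsAlgebraicGroup K H)
    {F : MvPolynomial (Ix n) ℂ}
    (hF : ∀ A : GL (Fin n) K, A.map (algebraMap K ℂ) ∈ H →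
      eval (pt (A.map (algebraMap K ℂ) : Matrix (Fin n) (Fin n) ℂ)) F = 0) :
    ∀ ν : ℂ →ₗ[K] K, map (algebraMap K ℂ) (nuP ν F) ∈ VanC H := by
  intro ν
  refine van_of_points hH fun A hA => ?_
  rw [eval_nuP]
  have h1 := hF A hA
  have h2 : pt (A.map (algebraMap K ℂ) : Matrix (Fin n) (Fin n) ℂ) =
      fun p => algebraMap K ℂ (pt (A : Matrix (Fin n) (Fin n) K) p) := rfl
  rw [h2] at h1
  rw [h1, map_zero]

theorem van_of_nu (K : Type) [Field K] [Algebra K ℂ] {H : Subgroup (GL (Fin n) ℂ)}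
    {F : MvPolynomial (Ix n) ℂ}
    (h : ∀ ν : ℂ →ₗ[K] K, map (algebraMap K ℂ) (nuP ν F) ∈ VanC H) : F ∈ VanC H := by
  obtain ⟨s, hs⟩ := exists_comb K F
  rw [hs]
  exact Ideal.sum_mem _ fun j _ => Ideal.mul_mem_left _ _ (h _)

theorem van_points [IsAlgClosed K] {H : Subgroup (GL (Fin n) ℂ)} (hH : IsAlgebraicGroup K H)
    {F : MvPolynomial (Ix n) ℂ}
    (hF : ∀ A : GL (Fin n) K, A.map (algebraMap K ℂ) ∈ H →
      eval (pt (A.map (algebraMap K ℂ) : Matrix (Fin n) (Fin n) ℂ)) F = 0) : F ∈ VanC H :=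
  van_of_nu K (van_of_pointsC hH hF)

theorem nu_of_van [IsAlgClosed K] {H : Subgroup (GL (Fin n) ℂ)} (hH : IsAlgebraicGroup K H)
    {F : MvPolynomial (Ix n) ℂ} (hF : F ∈ VanC H) (ν : ℂ →ₗ[K] K) :
    map (algebraMap K ℂ) (nuP ν F) ∈ VanC H :=
  van_of_pointsC hH (fun _ hA => hF _ hA) ν

end Pool.Agent.Q50.LR
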